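import Pool.Agent.W519.E.Stm
import Pool.Agent.W537.TT.Tors2

/-!
# The logarithmic derivatives are stable if the closure is a torsor
-/

set_option autoImplicit false
set_option linter.unusedSectionVars false

namespace Pool.Agent.W481.RK

open Pool.Agent.W537.TT Pool.Agent.W537.DB MvPolynomial

noncomputable section

/-! ### change of the coefficients -/

theorem sb_mem (σ : ℂ ≃+* ℂ) (a : Qb) : σ (a : ℂ) ∈ Qb := by
  have h1 := Qb_alg a
  rw [mem_algebraicClosure_iff]
  exact h1.algHom (σ : ℂ →+* ℂ).toRatAlgHom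

/-- the restriction of an automorphism of the field of complex numbers -/
def sb (σ : ℂ ≃+* ℂ) : Qb →+* Qb where
  toFun a := ⟨σ (a : ℂ), sb_mem σ a⟩
  map_one' := by
    apply Subtype.ext
    exact map_one σ
  map_zero' := by
    apply Subtype.ext
    exact map_zero σ
  map_mul' a b := by
    apply Subtype.ext
    exact map_mul σ (a : ℂ) (b : ℂ)
  map_add' a b := by
    apply Subtype.ext
    exact map_add σ (a : ℂ) (b : ℂ)

theorem sb_coe (σ : ℂ ≃+* ℂ) (a : Qb) : algebraMap Qb ℂ (sb σ a) = σ (algebraMap Qb ℂ a) := rfl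

/-- Transformation of the values of a polynomial. -/
theorem aeval_tw {N : Type} (σ : ℂ ≃+* ℂ) (e : N ≃ N) (B : Type) [CommRing B] [Algebra Qb B]
    (τ : B →+* B) (hτ : ∀ a : Qb, τ (algebraMap Qb B (sb σ.symm a)) = algebraMap Qb B a)
    (z : N → B) (p : MvPolynomial N Qb) :
    τ (aeval z (rename e.symm (map (sb σ.symm) p))) = aeval (fun n => τ (z (e.symm n))) p := by
  induction p using MvPolynomial.induction_on with
  | C a =>
    rw [map_C, rename_C, algHom_C, algHom_C]
    exact hτ a
  | add p q hp hq =>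
    rw [map_add, map_add, map_add, map_add, map_add, hp, hq]
  | mul_X p i hp =>
    rw [map_mul, map_mul, map_mul, map_mul, map_mul, hp, map_X, rename_X, aeval_X, aeval_X]

/-- Transformation of the points of the closure. -/
theorem pts_tw {N : Type} (σ : ℂ ≃+* ℂ) (e : N ≃ N) (B : Type) [CommRing B] [Algebra Qb B]
    (τ : B →+* B) (hτ : ∀ a : Qb, τ (algebraMap Qb B (sb σ.symm a)) = algebraMap Qb B a)
    (c : N → ℂ) {z : N → B} (hz : z ∈ pts c B) :
    (fun n => τ (z (e.symm n))) ∈ pts (fun n => σ (c (e.symm n))) B := by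
  intro p hp
  rw [← aeval_tw σ e B τ hτ z p]
  have h1 : aeval c (rename e.symm (map (sb σ.symm) p)) = 0 := by
    apply σ.injective
    rw [map_zero]
    have h2 := aeval_tw σ e ℂ (σ : ℂ →+* ℂ) (fun a => by
      change σ (σ.symm (a : ℂ)) = _
      rw [σ.apply_symm_apply]
      rfl) c p
    exact h2.trans hp
  rw [hz _ h1, map_zero]

/-- The automorphism of the ring of the dual numbers. -/
def dn (σ : ℂ ≃+* ℂ) : DualNumber ℂ →+* DualNumber ℂ where
  toFun x := TrivSqZeroExt.inl (σ x.fst) + TrivSqZeroExt.inr (σ x.snd)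
  map_one' := by simp
  map_zero' := by simp
  map_mul' x y := by
    ext
    · simp
    · simp [mul_comm]
  map_add' x y := by
    ext <;> simp

theorem dn_alg (σ : ℂ ≃+* ℂ) (a : Qb) :
    dn σ (algebraMap Qb (DualNumber ℂ) (sb σ.symm a)) = algebraMap Qb (DualNumber ℂ) a := by
  change TrivSqZeroExt.inl (σ (σ.symm (a : ℂ))) + TrivSqZeroExt.inr (σ 0) =
    (TrivSqZeroExt.inl (a : ℂ) : DualNumber ℂ)
  rw [σ.apply_symm_apply, map_zero, TrivSqZeroExt.inr_zero, add_zero]

theorem dn_ep {N : Type} (σ : ℂ ≃+* ℂ) (e : N ≃ N) (z w : N → ℂ) :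
    (fun n => dn σ (ep z w (e.symm n))) =
      ep (fun n => σ (z (e.symm n))) (fun n => σ (w (e.symm n))) := by
  funext n
  change TrivSqZeroExt.inl (σ (ep z w (e.symm n)).fst) +
    TrivSqZeroExt.inr (σ (ep z w (e.symm n)).snd) = _
  simp [ep]

/-! ### a variant of the left multiplication -/

section
variable {ι : Type} [Fintype ι] [DecidableEq ι]

theorem mulLeft2 {C C' : Matrix ι ι ℂ} (hC' : IsUnit C') {h : Matrix ι ι ℂ}
    (hh : ∀ z : Matrix ι ι Qb, vc (z.map (algebraMap Qb ℂ)) ∈ clos (vc C') →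
      IsUnit (z.map (algebraMap Qb ℂ)) → vc (h * z.map (algebraMap Qb ℂ)) ∈ clos (vc C))
    (B : Type) [CommRing B] [Algebra ℂ B] [Algebra Qb B]
    (hB : ∀ a : Qb, algebraMap Qb B a = algebraMap ℂ B (algebraMap Qb ℂ a)) {z : Matrix ι ι B}
    (hz : vc z ∈ pts (vc C') B) : vc (h.map (algebraMap ℂ B) * z) ∈ pts (vc C) B := by
  intro p hp
  let M : Matrix ι ι (MvPolynomial (ι × ι) ℂ) := h.map MvPolynomial.C * gm ℂ
  have hM : ∀ (B : Type) [CommRing B] [Algebra ℂ B] (z : Matrix ι ι B) (n : ι × ι),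
      aeval (vc z) (vc M n) = vc (h.map (algebraMap ℂ B) * z) n := by
    intro B _ _ z n
    have hMn : vc M n = ∑ k, (h.map MvPolynomial.C : Matrix ι ι (MvPolynomial (ι × ι) ℂ)) n.1 k *
        (gm ℂ : Matrix ι ι (MvPolynomial (ι × ι) ℂ)) k n.2 := Matrix.mul_apply
    rw [hMn]
    change _ = (h.map (algebraMap ℂ B) * z) n.1 n.2
    rw [Matrix.mul_apply, map_sum]
    refine Finset.sum_congr rfl fun k _ => ?_
    rw [map_mul, Matrix.map_apply, algHom_C, Matrix.map_apply]
    change _ * aeval (vc z) (X (k, n.2)) = _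
    rw [aeval_X]
    rfl
  have hd : aeval (vc C') (gm Qb : Matrix ι ι (MvPolynomial (ι × ι) Qb)).det ≠ 0 := by
    rw [aeval_det]
    exact det_ne hC'
  have h1 := null_pts (vc C') _ hd (aeval (vc M) p) ?_ B hB hz
  · rw [aeval_subst hB] at h1
    simp only [hM] at h1
    exact h1
  · intro y hy hdy
    let Y : Matrix ι ι Qb := Matrix.of fun i j => y (i, j)
    have e1 : (fun n => ((y n : Qb) : ℂ)) = vc (Y.map (algebraMap Qb ℂ)) := rfl
    have h2 := aeval_subst (B := ℂ) (fun _ => rfl) (vc M) p (fun n => ((y n : Qb) : ℂ))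
    rw [e1] at h2 hy hdy ⊢
    simp only [hM] at h2
    rw [aeval_det] at hdy
    have h3 := hh Y hy ((Matrix.isUnit_iff_isUnit_det _).2 (isUnit_iff_ne_zero.2 hdy)) p hp
    rw [← coe_aeval_eq_eval]
    change aeval _ _ = _
    rw [h2]
    exact h3

theorem ep_mulLeft2 {C C' : Matrix ι ι ℂ} (hC' : IsUnit C') {h : Matrix ι ι ℂ}
    (hh : ∀ z : Matrix ι ι Qb, vc (z.map (algebraMap Qb ℂ)) ∈ clos (vc C') →
      IsUnit (z.map (algebraMap Qb ℂ)) → vc (h * z.map (algebraMap Qb ℂ)) ∈ clos (vc C))
    {z w : Matrix ι ι ℂ} (hz : ep (vc z) (vc w) ∈ pts (vc C') (DualNumber ℂ)) :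
    ep (vc (h * z)) (vc (h * w)) ∈ pts (vc C) (DualNumber ℂ) := by
  have h1 := mulLeft2 hC' hh (DualNumber ℂ) (fun _ => rfl) (z := epM z w) hz
  rw [mul_epM] at h1
  exact h1

end

/-! ### block diagonal matrices -/

section
open Pool.Agent.W519.E

variable {S : Type} [Fintype S] [DecidableEq S]

theorem big_inj {x y : V S} (h : big x = big y) : x = y := by
  apply Prod.ext
  · exact congrFun (congrFun h none) none
  · funext s
    ext i j
    have h1 := congrFun (congrFun h (some (s, i))) (some (s, j))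
    simpa [big] using h1

theorem big_mul (x y : V S) : big (x * y) = big x * big y := by
  ext a b
  rw [Matrix.mul_apply, Fintype.sum_option]
  rcases a with _ | p
  · rcases b with _ | q
    · simp [big]
    · simp [big]
  · rcases b with _ | q
    · simp [big]
    · rw [Fintype.sum_prod_type]
      simp only [big, zero_mul, zero_add]
      rw [Finset.sum_eq_single p.1]
      · by_cases h : p.1 = q.1
        · rw [if_pos h]
          change (x.2 p.1 * y.2 p.1) p.2 q.2 = _
          rw [Matrix.mul_apply]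
          refine Finset.sum_congr rfl fun k _ => ?_
          rw [if_pos rfl, if_pos h]
        · rw [if_neg h]
          symm
          refine Finset.sum_eq_zero fun k _ => ?_
          rw [if_neg h, mul_zero]
      · intro s _ hs
        refine Finset.sum_eq_zero fun k _ => ?_
        rw [if_neg (fun h => hs h.symm), zero_mul]
      · intro h
        exact absurd (Finset.mem_univ _) h

theorem big_one : big (1 : V S) = 1 := by
  ext a b
  rcases a with _ | p
  · rcases b with _ | q
    · simp [big]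
    · simp [big]
  · rcases b with _ | q
    · simp [big]
    · simp only [big, Matrix.one_apply, Option.some.injEq]
      by_cases h : p.1 = q.1
      · rw [if_pos h]
        change (1 : Matrix (Fin 2) (Fin 2) ℂ) p.2 q.2 = _
        rw [Matrix.one_apply]
        by_cases h2 : p.2 = q.2
        · rw [if_pos h2, if_pos (Prod.ext h h2)]
        · rw [if_neg h2, if_neg (fun h3 => h2 (congrArg Prod.snd h3))]
      · rw [if_neg h, if_neg (fun h3 => h (congrArg Prod.fst h3))]

theorem inv_mul_V {x : V S} (hx : Pool.Agent.W519.E.Inv x) : x⁻¹ * x = 1 := by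
  apply Prod.ext
  · exact inv_mul_cancel₀ hx.1
  · funext s
    exact Matrix.nonsing_inv_mul _ (isUnit_iff_ne_zero.2 (hx.2 s))

theorem mul_inv_V {x : V S} (hx : Pool.Agent.W519.E.Inv x) : x * x⁻¹ = 1 := by
  apply Prod.ext
  · exact mul_inv_cancel₀ hx.1
  · funext s
    exact Matrix.mul_nonsing_inv _ (isUnit_iff_ne_zero.2 (hx.2 s))

theorem big_unit {x : V S} (hx : Pool.Agent.W519.E.Inv x) : IsUnit (big x) := by
  refine ⟨⟨big x, big x⁻¹, ?_, ?_⟩, rfl⟩
  · rw [← big_mul, mul_inv_V hx, big_one]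
  · rw [← big_mul, inv_mul_V hx, big_one]

theorem big_inv {x : V S} (hx : Pool.Agent.W519.E.Inv x) : big x⁻¹ = (big x)⁻¹ := by
  refine (Matrix.inv_eq_left_inv ?_).symm
  rw [← big_mul, inv_mul_V hx, big_one]

theorem inv_of_unit {x : V S} (hx : IsUnit (big x)) : Pool.Agent.W519.E.Inv x := by
  have h1 : big x * (big x)⁻¹ = 1 := mul_inv' hx
  refine ⟨?_, fun s => ?_⟩
  · intro h0
    have h2 := congrFun (congrFun h1 none) none
    rw [Matrix.mul_apply, Fintype.sum_option] at h2
    simp [big, h0] at h2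
  · let N : Matrix (Fin 2) (Fin 2) ℂ := Matrix.of fun i j => (big x)⁻¹ (some (s, i)) (some (s, j))
    have h3 : x.2 s * N = 1 := by
      ext i j
      have h2 := congrFun (congrFun h1 (some (s, i))) (some (s, j))
      rw [Matrix.mul_apply, Fintype.sum_option, Fintype.sum_prod_type] at h2
      rw [Matrix.mul_apply, Matrix.one_apply]
      rw [Matrix.one_apply] at h2
      simp only [Option.some.injEq, Prod.mk.injEq, true_and] at h2
      rw [← h2]
      rw [Finset.sum_eq_single s]
      · simp [big, N]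
      · intro t _ ht
        refine Finset.sum_eq_zero fun k _ => ?_
        have hst : s ≠ t := fun h => ht h.symm
        simp [big, hst]
      · intro h
        exact absurd (Finset.mem_univ _) h
    have h4 := congrArg Matrix.det h3
    rw [Matrix.det_mul, Matrix.det_one] at h4
    intro h5
    rw [h5, zero_mul] at h4
    exact zero_ne_one h4

/-- the permutation of the index set -/
def pe (g : (ℂ ≃+* ℂ) →* Equiv.Perm S) (σ : ℂ ≃+* ℂ) :
    Option (S × Fin 2) ≃ Option (S × Fin 2) :=
  Equiv.optionCongr ((g σ).prodCongr (Equiv.refl _))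

theorem big_tw (g : (ℂ ≃+* ℂ) →* Equiv.Perm S) (σ : ℂ ≃+* ℂ) (x : V S)
    (a b : Option (S × Fin 2)) :
    big (tw g σ x) a b = σ (big x ((pe g σ).symm a) ((pe g σ).symm b)) := by
  rcases a with _ | p
  · rcases b with _ | q
    · rfl
    · exact (map_zero σ).symm
  · rcases b with _ | q
    · exact (map_zero σ).symm
    · change (if p.1 = q.1 then (tw g σ x).2 p.1 p.2 q.2 else 0) =
        σ (if (g σ).symm p.1 = (g σ).symm q.1 then x.2 ((g σ).symm p.1) p.2 q.2 else 0)
      by_cases h : p.1 = q.1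
      · rw [if_pos h, if_pos (by rw [h])]
        rfl
      · rw [if_neg h, if_neg (fun h2 => h ((g σ).symm.injective h2)), map_zero]

theorem vc_big_tw (g : (ℂ ≃+* ℂ) →* Equiv.Perm S) (σ : ℂ ≃+* ℂ) (x : V S) :
    vc (big (tw g σ x)) =
      fun n => σ (vc (big x) (((pe g σ).prodCongr (pe g σ)).symm n)) := by
  funext n
  exact big_tw g σ x n.1 n.2

theorem tw_mul (g : (ℂ ≃+* ℂ) →* Equiv.Perm S) (σ : ℂ ≃+* ℂ) (x y : V S) :
    tw g σ (x * y) = tw g σ x * tw g σ y := by
  apply Prod.ext
  · exact map_mul σ _ _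
  · funext s
    exact Matrix.map_mul (f := (σ : ℂ →+* ℂ))

theorem tw_one (g : (ℂ ≃+* ℂ) →* Equiv.Perm S) (σ : ℂ ≃+* ℂ) : tw g σ (1 : V S) = 1 := by
  apply Prod.ext
  · exact map_one σ
  · funext s
    exact Matrix.map_one (σ : ℂ →+* ℂ) (map_zero _) (map_one _)

theorem one_tw (g : (ℂ ≃+* ℂ) →* Equiv.Perm S) (x : V S) : tw g 1 x = x := by
  apply Prod.ext
  · rfl
  · funext s
    ext i j
    change x.2 ((g 1).symm s) i j = _
    rw [map_one]
    rfl

theorem tw_inv_mul (g : (ℂ ≃+* ℂ) →* Equiv.Perm S) (σ : ℂ ≃+* ℂ) {z : V S}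
    (hz : Pool.Agent.W519.E.Inv z) : big (tw g σ z⁻¹) * big (tw g σ z) = 1 := by
  rw [← big_mul, ← tw_mul, inv_mul_V hz, tw_one, big_one]

/-- the transformation of the points -/
theorem cl_tw (g : (ℂ ≃+* ℂ) →* Equiv.Perm S) (σ : ℂ ≃+* ℂ) (c : V S)
    {M : Matrix (Option (S × Fin 2)) (Option (S × Fin 2)) ℂ}
    (hM : vc M ∈ clos (vc (big (tw g σ c)))) :
    vc (Matrix.of fun a b => σ.symm (M (pe g σ a) (pe g σ b))) ∈ clos (vc (big c)) := by
  have h1 := pts_tw σ.symm ((pe g σ).prodCongr (pe g σ)).symm ℂ ((σ.symm : ℂ ≃+* ℂ) : ℂ →+* ℂ)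
    (fun a => by
      change σ.symm (σ (a : ℂ)) = _
      rw [σ.symm_apply_apply]
      rfl) (vc (big (tw g σ c))) hM
  have h2 : (fun n => σ.symm (vc (big (tw g σ c))
      (((pe g σ).prodCongr (pe g σ)).symm.symm n))) = vc (big c) := by
    funext n
    rw [vc_big_tw]
    simp [Prod.map]
  rw [h2] at h1
  exact h1

theorem t : TORA := by
  intro hclo S _ _ g c hc hT σ x hx
  obtain ⟨hc1, hc2, hc3⟩ := hclo S c hc
  have hCu : IsUnit (big c) := big_unit hc
  obtain ⟨Z, hZ, hZu⟩ := exists_alg_matrix hCu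
  obtain ⟨z0, hz0⟩ := hc2 _ hZ
  rw [hz0] at hZ hZu
  have hz0i : Pool.Agent.W519.E.Inv z0 := inv_of_unit hZu
  have hz0c : z0 ∈ clo c := (hc1 z0).2 hZ
  have hcc : c ∈ clo c := fun p hp => hp
  -- the tangent vector at `c`
  have h1 : ep (vc (big c)) (vc (big c * big x)) ∈ pts (vc (big c)) (DualNumber ℂ) := by
    rw [← mem_derSpace_iff, ← mem_logSpace hCu]
    exact (hc3 _).2 ⟨x, hx, rfl⟩
  -- the tangent vector at the algebraic point
  have h2 : ep (vc (big z0)) (vc (big z0 * big x)) ∈ pts (vc (big c)) (DualNumber ℂ) := by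
    have h3 := ep_mulLeft hCu (h := big z0 * (big c)⁻¹) (fun z hz hzu => by
      obtain ⟨y, hy⟩ := hc2 _ hz
      rw [hy] at hz hzu ⊢
      have h4 := hT 1 z0 c y hz0i hc (inv_of_unit hzu) hz0c hcc ((hc1 y).2 hz)
      rw [one_tw] at h4
      have h5 := (hc1 _).1 h4
      rw [big_mul, big_mul, big_inv hc, ← Matrix.mul_assoc] at h5
      exact h5) h1
    rw [← Matrix.mul_assoc, Matrix.mul_assoc (big z0), inv_mul' hCu, Matrix.mul_one] at h3
    exact h3
  -- the conjugate
  have h6 : ep (vc (big (tw g σ z0))) (vc (big (tw g σ z0) * big (tw g σ x))) ∈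
      pts (vc (big (tw g σ c))) (DualNumber ℂ) := by
    have h7 := pts_tw σ ((pe g σ).prodCongr (pe g σ)) (DualNumber ℂ) (dn σ) (dn_alg σ)
      (vc (big c)) h2
    rw [dn_ep] at h7
    rw [← big_mul] at h7
    rw [← big_mul, ← tw_mul, vc_big_tw, vc_big_tw, vc_big_tw]
    exact h7
  have htc : IsUnit (big (tw g σ c)) := by
    have h8 := tw_inv_mul g σ hc
    rw [Matrix.isUnit_iff_isUnit_det]
    exact Matrix.isUnit_det_of_left_inverse h8
  have htz : IsUnit (big (tw g σ z0)) := by
    have h8 := tw_inv_mul g σ hz0i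
    rw [Matrix.isUnit_iff_isUnit_det]
    exact Matrix.isUnit_det_of_left_inverse h8
  have hti : big (tw g σ z0⁻¹) = (big (tw g σ z0))⁻¹ :=
    (Matrix.inv_eq_left_inv (tw_inv_mul g σ hz0i)).symm
  -- back to `c`
  have h9 : ep (vc (big c)) (vc (big c * big (tw g σ x))) ∈
      pts (vc (big c)) (DualNumber ℂ) := by
    have h10 := ep_mulLeft2 (C := big c) htc (h := big c * (big (tw g σ z0))⁻¹)
      (fun z hz hzu => by
        have h11 := cl_tw g σ c hz
        obtain ⟨y, hy⟩ := hc2 _ h11
        have hy' : big (tw g σ y) = z.map (algebraMap Qb ℂ) := by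
          ext a b
          rw [big_tw, ← hy]
          simp
        rw [hy] at h11
        have hyu : Pool.Agent.W519.E.Inv y := by
          apply inv_of_unit
          rw [← hy']at hzu
          have h12 : big (tw g σ y) * (big (tw g σ y))⁻¹ = 1 := mul_inv' hzu
          have h13 : big y * (Matrix.of fun a b => σ.symm ((big (tw g σ y))⁻¹ (pe g σ a)
              (pe g σ b))) = 1 := by
            ext a b
            have h14 := congrFun (congrFun h12 (pe g σ a)) (pe g σ b)
            rw [Matrix.mul_apply, Matrix.one_apply] at h14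
            rw [Matrix.mul_apply, Matrix.one_apply]
            have h15 := congrArg σ.symm h14
            rw [map_sum] at h15
            have h16 : σ.symm (if pe g σ a = pe g σ b then (1 : ℂ) else 0) =
                if a = b then 1 else 0 := by
              by_cases hab : a = b
              · rw [if_pos hab, if_pos (by rw [hab]), map_one]
              · rw [if_neg hab, if_neg (fun h => hab ((pe g σ).injective h)), map_zero]
            rw [h16] at h15
            rw [← h15, ← Equiv.sum_comp (pe g σ) (fun k => σ.symm (big (tw g σ y) (pe g σ a) k *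
              (big (tw g σ y))⁻¹ k (pe g σ b)))]
            refine Finset.sum_congr rfl fun k _ => ?_
            rw [map_mul, big_tw]
            simp
          rw [Matrix.isUnit_iff_isUnit_det]
          exact Matrix.isUnit_det_of_right_inverse h13
        have h17 := hT σ c z0 y hc hz0i hyu hcc hz0c ((hc1 y).2 h11)
        have h18 := (hc1 _).1 h17
        rw [big_mul, tw_mul, big_mul, hti, hy', ← Matrix.mul_assoc] at h18
        exact h18) h6
    rw [Matrix.mul_assoc, inv_mul' htz, Matrix.mul_one, ← Matrix.mul_assoc,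
      Matrix.mul_assoc (big c), inv_mul' htz, Matrix.mul_one] at h10
    exact h10
  rw [← mem_derSpace_iff, ← mem_logSpace hCu] at h9
  obtain ⟨x', hx', he⟩ := (hc3 _).1 h9
  rw [big_inj he]
  exact hx'

end

end

end Pool.Agent.W481.RK
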